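import Pool.Agent.Q120.ME.Stm

set_option autoImplicit false

/-!
Project ME, job LOW.
-/

namespace Pool.Agent.Q222.ME

open Finset MeasureTheory Filter Pool.Agent.Q120.ET Pool.Agent.Q120.ME
open scoped Topology ENNReal

theorem mem_ind {U : Set ℕ} {x n : ℕ} : n ∈ ind U x ↔ n < x ∧ n ∈ U := by
  classical
  unfold ind
  rw [mem_filter, mem_range]

theorem ind_succ_mem {U : Set ℕ} {x : ℕ} (h : x ∈ U) : ind U (x + 1) = insert x (ind U x) := by
  ext n
  rw [mem_insert, mem_ind, mem_ind]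
  constructor
  · rintro ⟨h1, h2⟩
    rcases Nat.lt_succ_iff_lt_or_eq.1 h1 with h3 | h3
    · exact Or.inr ⟨h3, h2⟩
    · exact Or.inl h3
  · rintro (rfl | ⟨h1, h2⟩)
    · exact ⟨Nat.lt_succ_self _, h⟩
    · exact ⟨Nat.lt_succ_of_lt h1, h2⟩

theorem ind_succ_notMem {U : Set ℕ} {x : ℕ} (h : x ∉ U) : ind U (x + 1) = ind U x := by
  ext n
  rw [mem_ind, mem_ind]
  constructor
  · rintro ⟨h1, h2⟩
    rcases Nat.lt_succ_iff_lt_or_eq.1 h1 with h3 | h3
    · exact ⟨h3, h2⟩
    · rw [h3] at h2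
      exact absurd h2 h
  · rintro ⟨h1, h2⟩
    exact ⟨Nat.lt_succ_of_lt h1, h2⟩

theorem ind_mono {U : Set ℕ} {x y : ℕ} (h : x ≤ y) : ind U x ⊆ ind U y := by
  intro n hn
  rw [mem_ind] at hn ⊢
  exact ⟨hn.1.trans_le h, hn.2⟩

theorem mass_mono {U : Set ℕ} {p : ℕ → ℝ} (hR : Rates U p) : Monotone (mass U p) := by
  intro x y h
  unfold mass
  apply sum_le_sum_of_subset_of_nonneg (ind_mono h)
  intro n hn _
  exact (hR.pos n (mem_ind.1 hn).2).le

theorem mass_step {U : Set ℕ} {p : ℕ → ℝ} (hR : Rates U p) (x : ℕ) : mass U p (x + 1) ≤ mass U p x + 1 := by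
  unfold mass
  by_cases h : x ∈ U
  · rw [ind_succ_mem h, sum_insert (by rw [mem_ind]; simp)]
    have := hR.lt_one x h
    linarith
  · rw [ind_succ_notMem h]
    linarith

/-- sums of small multiples are negligible -/
theorem small_sum {U : Set ℕ} {p : ℕ → ℝ} (hR : Rates U p) {g : ℕ → ℝ} (hg : ∀ ε : ℝ, 0 < ε → ∀ᶠ n : ℕ in atTop, n ∈ U → g n < ε)
    {ε : ℝ} (hε : 0 < ε) : ∀ᶠ x : ℕ in atTop, ∑ n ∈ ind U x, p n * g n ≤ ε * mass U p x := by
  obtain ⟨N, hN⟩ := eventually_atTop.1 (hg (ε / 2) (by linarith))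
  set c := ∑ n ∈ ind U N, |p n * g n| with hc
  have h1 := hR.div.eventually_ge_atTop (c / (ε / 2))
  filter_upwards [h1, eventually_ge_atTop N] with x hx hNx
  rw [div_le_iff₀ (by linarith)] at hx
  have h2 : ∑ n ∈ ind U x, p n * g n ≤ ∑ n ∈ ind U x, (ε / 2) * p n + c := by
    rw [← sum_sdiff (ind_mono hNx), ← sum_sdiff (f := fun n => (ε / 2) * p n) (ind_mono hNx)]
    have h3 : ∑ n ∈ ind U x \ ind U N, p n * g n ≤ ∑ n ∈ ind U x \ ind U N, (ε / 2) * p n := by
      apply sum_le_sum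
      intro n hn
      rw [Finset.mem_sdiff, mem_ind, mem_ind] at hn
      have h4 : N ≤ n := by
        by_contra hc
        exact hn.2 ⟨not_le.1 hc, hn.1.2⟩
      have h5 := hN n h4 hn.1.2
      have h6 := hR.pos n hn.1.2
      nlinarith
    have h7 : ∑ n ∈ ind U N, p n * g n ≤ c := sum_le_sum fun n _ => le_abs_self _
    have h8 : 0 ≤ ∑ n ∈ ind U N, (ε / 2) * p n := by
      apply sum_nonneg
      intro n hn
      have := hR.pos n (mem_ind.1 hn).2
      positivity
    linarith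
  rw [← mul_sum] at h2
  have h9 : ∑ n ∈ ind U x, p n = mass U p x := rfl
  rw [h9] at h2
  linarith

theorem hfun_nonneg {a : ℝ} (ha : 0 ≤ a) : 0 ≤ hfun a := by
  unfold hfun
  rcases ha.eq_or_lt with h | h
  · rw [← h]
    norm_num
  · have h1 := Real.one_sub_inv_le_log_of_pos h
    have h2 := mul_le_mul_of_nonneg_left h1 h.le
    have h3 : a * (1 - a⁻¹) = a - 1 := by field_simp
    linarith

theorem hfun_meas : Measurable hfun := by
  unfold hfun
  fun_prop

theorem kl_self {a : ℝ} (ha : 0 < a) (ha1 : a < 1) : kl a a = 0 := by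
  unfold kl
  rw [div_self ha.ne', div_self (by linarith)]
  simp

/-- the threshold -/
theorem exists_thr {U : Set ℕ} {p : ℕ → ℝ} (hR : Rates U p) : ∃ K : ℕ → ℕ, ∀ k n : ℕ, K k ≤ n → n ∈ U →
    p n ≤ 1 / 2 ∧ ((k : ℝ) ^ 2 + 1) * √(p n) ≤ 1 := by
  have h : ∀ k : ℕ, ∃ N : ℕ, ∀ n : ℕ, N ≤ n → n ∈ U → p n ≤ 1 / 2 ∧ ((k : ℝ) ^ 2 + 1) * √(p n) ≤ 1 := by
    intro k
    have h1 := hR.small (min (1 / 2) (1 / ((k : ℝ) ^ 2 + 1) ^ 2)) (lt_min (by norm_num) (by positivity))
    obtain ⟨N, hN⟩ := eventually_atTop.1 h1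
    refine ⟨N, fun n hn hU => ?_⟩
    have h2 := hN n hn hU
    refine ⟨(h2.trans_le (min_le_left _ _)).le, ?_⟩
    have h3 : p n ≤ 1 / ((k : ℝ) ^ 2 + 1) ^ 2 := (h2.trans_le (min_le_right _ _)).le
    have h4 : √(p n) ≤ 1 / ((k : ℝ) ^ 2 + 1) := by
      rw [Real.sqrt_le_left (by positivity), div_pow, one_pow]
      exact h3
    have h5 := mul_le_mul_of_nonneg_left h4 (show 0 ≤ (k : ℝ) ^ 2 + 1 by positivity)
    rwa [mul_one_div_cancel (by positivity)] at h5
  choose K hK using h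
  exact ⟨K, fun k n => hK k n⟩

open Classical in
/-- the rates given the parameter -/
noncomputable def rr (U : Set ℕ) (p : ℕ → ℝ) (K : ℕ → ℕ) (a : ℝ) (n : ℕ) : ℝ :=
  if n ∈ U then (if K ⌈|a|⌉₊ ≤ n then max a 0 * p n else p n) else 0

theorem rr_meas (U : Set ℕ) (p : ℕ → ℝ) (K : ℕ → ℕ) (n : ℕ) : Measurable (fun a => rr U p K a n) := by
  classical
  unfold rr
  by_cases h : n ∈ U
  · simp only [h, if_true]
    apply Measurable.ite
    · have h1 : Measurable (fun a : ℝ => ⌈|a|⌉₊) := Nat.measurable_ceil.comp measurable_id.abs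
      exact h1 (MeasurableSet.of_discrete (s := {k : ℕ | K k ≤ n}))
    · fun_prop
    · exact measurable_const
  · simp only [h, if_false]
    exact measurable_const

theorem bern_single (a : ℕ → ℝ) (n : ℕ) : bern a {n} {n} = a n := by
  unfold bern
  simp

theorem t_LOW (hCON : J_CON) (hENM : J_ENM) (hKLB : J_KLB) (hSLL : J_SLL) : J_LOW := by
  classical
  intro U p δ hR hδ ν _ hν0 hν
  obtain ⟨K, hK⟩ := exists_thr hR
  -- basic facts
  have hp : ∀ n ∈ U, 0 < p n ∧ p n < 1 := fun n hn => ⟨hR.pos n hn, hR.lt_one n hn⟩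
  have hceil : ∀ a : ℝ, |a| ≤ ⌈|a|⌉₊ := fun a => Nat.le_ceil _
  have hbig : ∀ a : ℝ, ∀ n ∈ U, K ⌈|a|⌉₊ ≤ n → p n ≤ 1 / 2 ∧ (a ^ 2 + 1) * √(p n) ≤ 1 := by
    intro a n hn hKn
    obtain ⟨h1, h2⟩ := hK _ n hKn hn
    refine ⟨h1, le_trans ?_ h2⟩
    apply mul_le_mul_of_nonneg_right _ (Real.sqrt_nonneg _)
    have h3 := hceil a
    have h4 : a ^ 2 ≤ (⌈|a|⌉₊ : ℝ) ^ 2 := by
      rw [← sq_abs]
      exact pow_le_pow_left₀ (abs_nonneg _) h3 2
    linarith
  have hap : ∀ a : ℝ, ∀ n ∈ U, K ⌈|a|⌉₊ ≤ n → max a 0 * p n ≤ 1 := by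
    intro a n hn hKn
    obtain ⟨h1, h2⟩ := hbig a n hn hKn
    have h3 := hp n hn
    have h4 : p n ≤ √(p n) := by
      apply Real.le_sqrt_of_sq_le
      nlinarith
    have h5 : max a 0 ≤ a ^ 2 + 1 := max_le (by nlinarith [sq_nonneg (a - 1)]) (by positivity)
    have h6 : 0 ≤ a ^ 2 + 1 := by positivity
    nlinarith
  have hrr : ∀ a n, 0 ≤ rr U p K a n ∧ rr U p K a n ≤ 1 := by
    intro a n
    unfold rr
    split_ifs with h1 h2
    · exact ⟨mul_nonneg (le_max_right _ _) (hp n h1).1.le, hap a n h1 h2⟩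
    · exact ⟨(hp n h1).1.le, (hp n h1).2.le⟩
    · exact ⟨le_rfl, zero_le_one⟩
  obtain ⟨Ω, hΩ, μ, hμ, A, π, hM⟩ := hCON ℝ ν (rr U p K) (rr_meas U p K) hrr
  have ha0 : ∀ᵐ a ∂ν, 0 ≤ a := by
    rw [ae_iff]
    convert hν0 using 2
    ext a
    simp
  refine ⟨Ω, hΩ, μ, hμ, A, π, hM.rand, hM.meas, hM.map, ?_, ?_, ?_⟩
  · -- the relative entropy
    have hint : Integrable hfun ν := by
      refine ⟨hfun_meas.aestronglyMeasurable, ?_⟩
      rw [hasFiniteIntegral_iff_ofReal (by filter_upwards [ha0] with a ha using hfun_nonneg ha)]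
      exact lt_of_le_of_lt hν ENNReal.ofReal_lt_top
    have hint2 : ∫ a, hfun a ∂ν ≤ δ := by
      rw [integral_eq_lintegral_of_nonneg_ae (by filter_upwards [ha0] with a ha using hfun_nonneg ha) hfun_meas.aestronglyMeasurable]
      exact ENNReal.toReal_le_of_le_ofReal hδ hν
    intro ε hε
    have hg : ∀ η : ℝ, 0 < η → ∀ᶠ n : ℕ in atTop, n ∈ U → √(p n) < η := by
      intro η hη
      filter_upwards [hR.small (η ^ 2) (by positivity)] with n hn hU
      rw [Real.sqrt_lt' hη]
      exact hn hU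
    filter_upwards [small_sum hR hg hε] with x hx
    have hF : ∀ n ∈ ind U x, 0 < p n ∧ p n < 1 := fun n hn => hp n (mem_ind.1 hn).2
    obtain ⟨h1, h2⟩ := hENM ℝ ν (rr U p K) (rr_meas U p K) hrr Ω μ A π hM p (ind U x) hF
    refine h2.trans ?_
    have h3 : ∫ a, ∑ n ∈ ind U x, kl (rr U p K a n) (p n) ∂ν ≤ ∫ a, (mass U p x * hfun a + ∑ n ∈ ind U x, p n * √(p n)) ∂ν := by
      apply integral_mono_ae h1 ((hint.const_mul _).add (integrable_const _))
      filter_upwards [ha0] with a ha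
      change ∑ n ∈ ind U x, kl (rr U p K a n) (p n) ≤ mass U p x * hfun a + ∑ n ∈ ind U x, p n * √(p n)
      unfold mass
      rw [sum_mul, ← sum_add_distrib]
      apply sum_le_sum
      intro n hn
      have hnU := (mem_ind.1 hn).2
      have hpn := hp n hnU
      have hs := Real.sqrt_nonneg (p n)
      have hh := hfun_nonneg ha
      have e1 : rr U p K a n = if K ⌈|a|⌉₊ ≤ n then max a 0 * p n else p n := if_pos hnU
      rw [e1]
      split_ifs with hKn
      · obtain ⟨g1, g2⟩ := hbig a n hnU hKn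
        have g3 := hap a n hnU hKn
        rw [max_eq_left ha] at g3 ⊢
        have g4 := hKLB a (p n) ha hpn.1 g1 g3
        have g5 : (a ^ 2 + 1) * p n ^ 2 ≤ p n * √(p n) := by
          have g6 : p n ^ 2 = p n * √(p n) * √(p n) := by
            rw [mul_assoc, Real.mul_self_sqrt hpn.1.le]
            ring
          rw [g6]
          have g7 : 0 ≤ p n * √(p n) := mul_nonneg hpn.1.le hs
          nlinarith
        linarith
      · rw [kl_self hpn.1 hpn.2]
        have := mul_nonneg hpn.1.le hh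
        have := mul_nonneg hpn.1.le hs
        linarith
    refine h3.trans ?_
    rw [integral_add (hint.const_mul _) (integrable_const _), integral_const_mul, integral_const]
    have h4 : 0 ≤ mass U p x := sum_nonneg fun n hn => (hp n (mem_ind.1 hn).2).1.le
    have h5 := mul_le_mul_of_nonneg_left hint2 h4
    simp only [probReal_univ, one_smul]
    linarith
  · -- the limit
    have h1 := hSLL ℝ ν (rr U p K) (rr_meas U p K) hrr Ω μ A π hM U (mass U p) 1 (mass_mono hR) hR.div (mass_step hR) (fun a => a) ?_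
    · exact h1
    · filter_upwards [ha0] with a ha
      set c := ∑ n ∈ ind U (K ⌈|a|⌉₊), |p n - a * p n| with hc
      have h2 : ∀ N, |∑ n ∈ ind U N, rr U p K a n - a * mass U p N| ≤ c := by
        intro N
        unfold mass
        rw [mul_sum, ← sum_sub_distrib]
        refine (abs_sum_le_sum_abs _ _).trans ?_
        have h3 : ∑ n ∈ ind U N, |rr U p K a n - a * p n| = ∑ n ∈ ind U N ∩ ind U (K ⌈|a|⌉₊), |rr U p K a n - a * p n| := by
          symm
          apply sum_subset inter_subset_left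
          intro n hn hn2
          have hnU := (mem_ind.1 hn).2
          have h4 : K ⌈|a|⌉₊ ≤ n := by
            by_contra hcon
            exact hn2 (mem_inter.2 ⟨hn, mem_ind.2 ⟨not_le.1 hcon, hnU⟩⟩)
          have e1 : rr U p K a n = max a 0 * p n := by
            unfold rr
            rw [if_pos hnU, if_pos h4]
          rw [e1, max_eq_left ha, sub_self, abs_zero]
        rw [h3]
        calc ∑ n ∈ ind U N ∩ ind U (K ⌈|a|⌉₊), |rr U p K a n - a * p n|
            ≤ ∑ n ∈ ind U (K ⌈|a|⌉₊), |rr U p K a n - a * p n| :=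
              sum_le_sum_of_subset_of_nonneg inter_subset_right fun _ _ _ => abs_nonneg _
          _ = c := by
              apply sum_congr rfl
              intro n hn
              obtain ⟨g1, g2⟩ := mem_ind.1 hn
              have e1 : rr U p K a n = p n := by
                unfold rr
                rw [if_pos g2, if_neg (not_le.2 g1)]
              rw [e1]
      have h3 : Tendsto (fun N : ℕ => (∑ n ∈ ind U N, rr U p K a n) / mass U p N - a) atTop (𝓝 0) := by
        apply squeeze_zero_norm' (a := fun N => c / mass U p N)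
        · filter_upwards [hR.div.eventually_gt_atTop 0] with N hN
          have e : (∑ n ∈ ind U N, rr U p K a n) / mass U p N - a = (∑ n ∈ ind U N, rr U p K a n - a * mass U p N) / mass U p N := by
            field_simp
          rw [e, Real.norm_eq_abs, abs_div, abs_of_pos hN]
          exact div_le_div_of_nonneg_right (h2 N) hN.le
        · exact hR.div.const_div_atTop c
      have h4 := h3.add_const a
      simpa using h4
  · -- finite sets over zero
    have h1 : ∀ n ∈ U, K ⌈|(0 : ℝ)|⌉₊ ≤ n → ∀ᵐ ω ∂μ, ¬ (n ∈ A ω ∧ π ω = 0) := by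
      intro n hn hKn
      have h2 := hM.law {n} {n} {0} (measurableSet_singleton 0)
      have h3 : ∫ x in ({0} : Set ℝ), bern (rr U p K x) {n} {n} ∂ν = 0 := by
        apply setIntegral_eq_zero_of_forall_eq_zero
        intro x hx
        rw [Set.mem_singleton_iff] at hx
        rw [hx, bern_single]
        unfold rr
        rw [if_pos hn, if_pos hKn]
        simp
      rw [h3, measureReal_eq_zero_iff] at h2
      rw [ae_iff]
      refine measure_mono_null ?_ h2
      intro ω hω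
      simp only [Set.mem_ofPred_eq, not_not] at hω
      refine ⟨?_, hω.2⟩
      intro m hm
      rw [Finset.mem_singleton] at hm
      subst hm
      simp [hω.1]
    have h2 : ∀ᵐ ω ∂μ, ∀ n : ℕ, n ∈ U → K ⌈|(0 : ℝ)|⌉₊ ≤ n → ¬ (n ∈ A ω ∧ π ω = 0) := by
      rw [ae_all_iff]
      intro n
      by_cases hn : n ∈ U
      · by_cases hKn : K ⌈|(0 : ℝ)|⌉₊ ≤ n
        · filter_upwards [h1 n hn hKn] with ω hω _ _ using hω
        · exact ae_of_all _ fun _ _ h => absurd h hKn
      · exact ae_of_all _ fun _ h => absurd h hn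
    filter_upwards [h2] with ω hω h0
    refine ⟨K ⌈|(0 : ℝ)|⌉₊, fun n hnA hnU => ?_⟩
    by_contra hc
    exact hω n hnU (not_lt.1 hc) ⟨hnA, h0⟩

end Pool.Agent.Q222.ME
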