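import Pool.Agent.Q120.ME.Stm

set_option autoImplicit false

/-!
Project ME, job UPL.
-/

namespace Pool.Agent.Q222.ME

open Finset MeasureTheory Filter Pool.Agent.Q120.ET Pool.Agent.Q120.ME
open scoped Topology ENNReal

/-- a dense sequence of real numbers -/
noncomputable def th (i : ℕ) : ℝ := ((Denumerable.ofNat ℚ i : ℚ) : ℝ)

theorem th_dense : DenseRange th := by
  have h1 : DenseRange (fun q : ℚ => (q : ℝ)) := Rat.denseRange_cast
  have h2 : Function.Surjective (Denumerable.ofNat ℚ) := fun q => ⟨_, Denumerable.ofNat_encode q⟩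
  exact h1.comp h2.denseRange Rat.continuous_coe_real

/-- approximations of the rate function from below -/
noncomputable def phi : ℕ → ℝ → ℝ
  | 0, _ => 0
  | r + 1, a => max (phi r a) (th r * a - (Real.exp (th r) - 1))

theorem phi_nonneg (r : ℕ) (a : ℝ) : 0 ≤ phi r a := by
  induction r with
  | zero => exact le_rfl
  | succ r ih => exact le_max_of_le_left ih

theorem phi_mono (a : ℝ) : Monotone (fun r => phi r a) :=
  monotone_nat_of_le_succ fun _ => le_max_left _ _

theorem phi_cont (r : ℕ) : Continuous (phi r) := by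
  induction r with
  | zero => exact continuous_const
  | succ r ih => exact ih.max (by fun_prop)

theorem phi_exp (r : ℕ) (m t : ℝ) : Real.exp (m * phi r t) ≤
    1 + ∑ i ∈ range r, Real.exp (th i * (m * t) - (Real.exp (th i) - 1) * m) := by
  induction r with
  | zero => simp [phi]
  | succ r ih =>
    rw [sum_range_succ]
    have h1 : phi (r + 1) t = max (phi r t) (th r * t - (Real.exp (th r) - 1)) := rfl
    rw [h1]
    rcases max_choice (phi r t) (th r * t - (Real.exp (th r) - 1)) with h | h
    · rw [h]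
      have := Real.exp_pos (th r * (m * t) - (Real.exp (th r) - 1) * m)
      linarith
    · rw [h]
      have e : m * (th r * t - (Real.exp (th r) - 1)) = th r * (m * t) - (Real.exp (th r) - 1) * m := by ring
      rw [e]
      have : 0 ≤ ∑ i ∈ range r, Real.exp (th i * (m * t) - (Real.exp (th i) - 1) * m) :=
        sum_nonneg fun _ _ => (Real.exp_pos _).le
      linarith

theorem bern_nonneg {p : ℕ → ℝ} {F : Finset ℕ} (hp : ∀ n ∈ F, 0 ≤ p n ∧ p n ≤ 1) (T : Finset ℕ) : 0 ≤ bern p F T := by
  unfold bern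
  apply prod_nonneg
  intro n hn
  have := hp n hn
  split_ifs <;> linarith

theorem upl_fin (hDV : J_DV) (hGEN : J_GEN) {p : ℕ → ℝ} {F : Finset ℕ} (hp : ∀ n ∈ F, 0 < p n ∧ p n < 1) {Ω : Type} [MeasurableSpace Ω]
    (μ : Measure Ω) [IsProbabilityMeasure μ] {A : Ω → Set ℕ} (hA : IsRandomSet A) (r : ℕ) (hm : 0 < ∑ n ∈ F, p n) :
    ∑ T ∈ F.powerset, lawOn μ A F T * ((∑ n ∈ F, p n) * phi r (T.card / ∑ n ∈ F, p n)) ≤ relEnt p μ A F + Real.log (r + 1) := by
  set m := ∑ n ∈ F, p n with hmd
  have hp' : ∀ n ∈ F, 0 ≤ p n ∧ p n ≤ 1 := fun n hn => ⟨(hp n hn).1.le, (hp n hn).2.le⟩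
  have h1 := hDV p F hp Ω μ A hA (fun T => m * phi r (T.card / m))
  refine h1.trans ?_
  have h2 : ∑ T ∈ F.powerset, bern p F T * Real.exp (m * phi r (T.card / m)) ≤ r + 1 := by
    calc ∑ T ∈ F.powerset, bern p F T * Real.exp (m * phi r (T.card / m))
        ≤ ∑ T ∈ F.powerset, (bern p F T * Real.exp (0 * (T.card : ℝ)) +
            ∑ i ∈ range r, Real.exp (-((Real.exp (th i) - 1) * m)) * (bern p F T * Real.exp (th i * T.card))) := by
          apply sum_le_sum
          intro T _
          have h3 := phi_exp r m ((T.card : ℝ) / m)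
          have h4 : m * ((T.card : ℝ) / m) = T.card := by field_simp
          rw [h4] at h3
          have h5 := mul_le_mul_of_nonneg_left h3 (bern_nonneg hp' T)
          refine h5.trans (le_of_eq ?_)
          rw [mul_add, mul_one, zero_mul, Real.exp_zero, mul_one, mul_sum]
          congr 1
          apply sum_congr rfl
          intro i _
          rw [sub_eq_add_neg, Real.exp_add]
          ring
      _ = ∑ T ∈ F.powerset, bern p F T * Real.exp (0 * (T.card : ℝ)) +
            ∑ i ∈ range r, Real.exp (-((Real.exp (th i) - 1) * m)) * ∑ T ∈ F.powerset, bern p F T * Real.exp (th i * T.card) := by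
          rw [sum_add_distrib, sum_comm]
          congr 1
          apply sum_congr rfl
          intro i _
          exact (mul_sum _ _ _).symm
      _ ≤ 1 + ∑ i ∈ range r, (1 : ℝ) := by
          apply add_le_add
          · have := hGEN p F hp' 0
            rwa [Real.exp_zero, sub_self, zero_mul, Real.exp_zero] at this
          · apply sum_le_sum
            intro i _
            have h3 := mul_le_mul_of_nonneg_left (hGEN p F hp' (th i)) (Real.exp_pos (-((Real.exp (th i) - 1) * m))).le
            rwa [← Real.exp_add, neg_add_cancel, Real.exp_zero] at h3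
      _ = r + 1 := by
          rw [sum_const, card_range, nsmul_eq_mul]
          ring
  have h3 : 0 < ∑ T ∈ F.powerset, bern p F T * Real.exp (m * phi r (T.card / m)) := by
    have h4 : ∀ T ∈ F.powerset, 0 < bern p F T * Real.exp (m * phi r (T.card / m)) := by
      intro T _
      apply mul_pos _ (Real.exp_pos _)
      unfold bern
      apply prod_pos
      intro n hn
      have := hp n hn
      split_ifs <;> linarith
    exact sum_pos h4 ⟨∅, by simp⟩
  have h4 := Real.log_le_log h3 h2
  linarith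

theorem lint_tr {Ω : Type} [MeasurableSpace Ω] (μ : Measure Ω) {A : Ω → Set ℕ} (hA : IsRandomSet A) (F : Finset ℕ) (g : Finset ℕ → ℝ≥0∞) :
    Measurable (fun ω => g (tr A F ω)) ∧ ∫⁻ ω, g (tr A F ω) ∂μ = ∑ T ∈ F.powerset, g T * μ {ω | tr A F ω = T} := by
  classical
  have hme : ∀ T ∈ F.powerset, MeasurableSet {ω | tr A F ω = T} := by
    intro T hT
    rw [← law_set_eq A (mem_powerset.1 hT)]
    exact measurableSet_law hA F T
  have h1 : (fun ω => g (tr A F ω)) = fun ω => ∑ T ∈ F.powerset, ({ω | tr A F ω = T} : Set Ω).indicator (fun _ => g T) ω := by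
    funext ω
    rw [sum_eq_single (tr A F ω)]
    · simp
    · intro T _ hT
      rw [Set.indicator_of_notMem]
      intro h
      exact hT (show tr A F ω = T from h).symm
    · intro h
      exfalso
      apply h
      rw [mem_powerset]
      intro n hn
      exact (mem_tr.1 hn).1
  have h2 : ∀ T ∈ F.powerset, Measurable (({ω | tr A F ω = T} : Set Ω).indicator (fun _ => g T)) := fun T hT =>
    measurable_const.indicator (hme T hT)
  rw [h1]
  refine ⟨Finset.measurable_fun_sum _ h2, ?_⟩
  rw [lintegral_finsetSum _ h2]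
  apply sum_congr rfl
  intro T hT
  rw [lintegral_indicator_const (hme T hT)]

theorem hfun_le (a : ℝ) (ha : 0 ≤ a) : ENNReal.ofReal (hfun a) ≤ ⨆ r, ENNReal.ofReal (phi r a) := by
  apply le_of_forall_lt
  intro c hc
  rw [lt_iSup_iff]
  -- it suffices to find a real parameter
  suffices h : ∃ θ : ℝ, c < ENNReal.ofReal (θ * a - (Real.exp θ - 1)) by
    have hopen : IsOpen {θ : ℝ | c < ENNReal.ofReal (θ * a - (Real.exp θ - 1))} :=
      isOpen_lt continuous_const (ENNReal.continuous_ofReal.comp (by fun_prop))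
    obtain ⟨i, hi⟩ := th_dense.exists_mem_open hopen h
    refine ⟨i + 1, lt_of_lt_of_le hi ?_⟩
    apply ENNReal.ofReal_le_ofReal
    exact le_max_right _ _
  rcases ha.eq_or_lt with h | h
  · rw [← h] at hc ⊢
    have h1 : Tendsto (fun θ : ℝ => ENNReal.ofReal (θ * 0 - (Real.exp θ - 1))) atBot (𝓝 (ENNReal.ofReal (hfun 0))) := by
      apply (ENNReal.continuous_ofReal.tendsto _).comp
      have h2 : Tendsto (fun θ : ℝ => θ * 0 - (Real.exp θ - 1)) atBot (𝓝 (0 - (0 - 1))) := by
        have h3 : Tendsto (fun θ : ℝ => θ * 0) atBot (𝓝 0) := by simp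
        exact h3.sub (Real.tendsto_exp_atBot.sub tendsto_const_nhds)
      have h4 : hfun 0 = 0 - (0 - 1) := by simp [hfun]
      rw [h4]
      exact h2
    exact (h1.eventually (lt_mem_nhds hc)).exists
  · refine ⟨Real.log a, ?_⟩
    rw [Real.exp_log h]
    have : Real.log a * a - (a - 1) = hfun a := by
      unfold hfun
      ring
    rw [this]
    exact hc

theorem t_UPL (hDV : J_DV) (hGEN : J_GEN) : J_UPL := by
  intro U p δ hR hδ Ω _ μ _ A hA hrel L hL hlim
  have hmem : ∀ {x n : ℕ}, n ∈ ind U x → n ∈ U := by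
    classical
    intro x n hn
    exact (mem_filter.1 hn).2
  have hcnt : ∀ (ω : Ω) (x : ℕ), cnt U (A ω) x = (tr A (ind U x) ω).card := fun ω x => rfl
  -- the bound for the expectations
  have hE : ∀ (r : ℕ) (ε : ℝ), 0 < ε → ∀ᶠ x : ℕ in atTop,
      ∫⁻ ω, ENNReal.ofReal (phi r ((cnt U (A ω) x : ℝ) / mass U p x)) ∂μ ≤ ENNReal.ofReal (δ + ε) := by
    intro r ε hε
    have h1 := hrel (ε / 2) (by linarith)
    have h2 := hR.div.eventually_ge_atTop (max 1 (Real.log (r + 1) / (ε / 2)))
    filter_upwards [h1, h2] with x h1 h2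
    have hm1 : 1 ≤ mass U p x := (le_max_left _ _).trans h2
    have hm2 : Real.log (r + 1) / (ε / 2) ≤ mass U p x := (le_max_right _ _).trans h2
    rw [div_le_iff₀ (by linarith)] at hm2
    have hm0 : 0 < mass U p x := by linarith
    have h3 := upl_fin hDV hGEN (p := p) (F := ind U x) (fun n hn => ⟨hR.pos n (hmem hn), hR.lt_one n (hmem hn)⟩) μ hA r hm0
    change ∑ T ∈ (ind U x).powerset, lawOn μ A (ind U x) T * (mass U p x * phi r (T.card / mass U p x)) ≤ _ at h3
    have h4 := (lint_tr μ hA (ind U x) (fun T => ENNReal.ofReal (phi r ((T.card : ℝ) / mass U p x)))).2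
    have h5 : ∫⁻ ω, ENNReal.ofReal (phi r ((cnt U (A ω) x : ℝ) / mass U p x)) ∂μ =
        ENNReal.ofReal (∑ T ∈ (ind U x).powerset, lawOn μ A (ind U x) T * phi r (T.card / mass U p x)) := by
      change ∫⁻ ω, ENNReal.ofReal (phi r (((tr A (ind U x) ω).card : ℝ) / mass U p x)) ∂μ = _
      rw [h4, ENNReal.ofReal_sum_of_nonneg fun T _ => mul_nonneg (show 0 ≤ lawOn μ A (ind U x) T from measureReal_nonneg) (phi_nonneg _ _)]
      apply sum_congr rfl
      intro T hT
      rw [mul_comm (lawOn μ A (ind U x) T), ENNReal.ofReal_mul (phi_nonneg _ _)]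
      congr 1
      unfold lawOn
      rw [law_set_eq A (mem_powerset.1 hT), ofReal_measureReal]
    rw [h5]
    apply ENNReal.ofReal_le_ofReal
    have h6 : ∑ T ∈ (ind U x).powerset, lawOn μ A (ind U x) T * (mass U p x * phi r (T.card / mass U p x)) =
        mass U p x * ∑ T ∈ (ind U x).powerset, lawOn μ A (ind U x) T * phi r (T.card / mass U p x) := by
      rw [mul_sum]
      apply sum_congr rfl
      intro T _
      ring
    rw [h6] at h3
    have h7 : mass U p x * ∑ T ∈ (ind U x).powerset, lawOn μ A (ind U x) T * phi r (T.card / mass U p x) ≤ mass U p x * (δ + ε) := by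
      nlinarith
    exact le_of_mul_le_mul_left h7 hm0
  -- Fatou
  have hF : ∀ r : ℕ, ∫⁻ ω, ENNReal.ofReal (phi r (L ω)) ∂μ ≤ ENNReal.ofReal δ := by
    intro r
    have h1 : ∫⁻ ω, ENNReal.ofReal (phi r (L ω)) ∂μ ≤
        ∫⁻ ω, liminf (fun x : ℕ => ENNReal.ofReal (phi r ((cnt U (A ω) x : ℝ) / mass U p x))) atTop ∂μ := by
      apply lintegral_mono_ae
      filter_upwards [hlim] with ω hω
      have h2 : Tendsto (fun x : ℕ => ENNReal.ofReal (phi r ((cnt U (A ω) x : ℝ) / mass U p x))) atTop (𝓝 (ENNReal.ofReal (phi r (L ω)))) :=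
        (ENNReal.continuous_ofReal.tendsto _).comp (((phi_cont r).tendsto _).comp hω)
      rw [h2.liminf_eq]
    have h2 := lintegral_liminf_le (μ := μ) (u := atTop) (f := fun (x : ℕ) ω => ENNReal.ofReal (phi r ((cnt U (A ω) x : ℝ) / mass U p x)))
      (fun x => (lint_tr μ hA (ind U x) (fun T => ENNReal.ofReal (phi r ((T.card : ℝ) / mass U p x)))).1)
    refine h1.trans (h2.trans ?_)
    apply ENNReal.le_of_forall_pos_le_add
    intro ε hε _
    have h3 := hE r ε (by exact_mod_cast hε)
    have h4 : liminf (fun x : ℕ => ∫⁻ ω, ENNReal.ofReal (phi r ((cnt U (A ω) x : ℝ) / mass U p x)) ∂μ) atTop ≤ ENNReal.ofReal (δ + ε) := by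
      apply liminf_le_of_frequently_le'
      exact h3.frequently
    refine h4.trans ?_
    rw [ENNReal.ofReal_add hδ (by positivity), ENNReal.ofReal_coe_nnreal]
  -- monotone convergence
  have hS : ∫⁻ ω, ⨆ r, ENNReal.ofReal (phi r (L ω)) ∂μ ≤ ENNReal.ofReal δ := by
    rw [lintegral_iSup]
    · exact iSup_le hF
    · intro r
      exact ((phi_cont r).measurable.comp hL).ennreal_ofReal
    · intro r s hrs ω
      exact ENNReal.ofReal_le_ofReal (phi_mono _ hrs)
  refine le_trans (lintegral_mono_ae ?_) hS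
  filter_upwards [hlim] with ω hω
  apply hfun_le
  apply ge_of_tendsto hω
  filter_upwards [hR.div.eventually_ge_atTop 0] with x hx
  positivity

end Pool.Agent.Q222.ME
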